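import Pool.Agent.Q84.WZ4

/-!
# A translation invariant Banach function space on the amenable group `ℤ` which has bounded
non-regular operators, but on which every bounded operator commuting with right translations is
regular

The group is `ℤ` (discrete, written additively; its Haar measure is the counting measure, so
`L⁰(ℤ)` is the space of all functions `ℤ → ℂ`).  The space is
`E = {f : ∑ (1+|n|)² |f(n)|² < ∞}` with `N f = (∑ (1+|n|)² |f(n)|²)^{1/2}`.
The vocabulary (`IsBFS`, `Bdd`, `Pos`, `Regular`, `TransInv`, `CommRight`, `Amenable`) is defined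
for every discrete group in `Pool.Agent.Q84.WZ1`.
-/

namespace Pool.Agent.Results.MP_3f33d0_an.WeightedIntegers

open Pool.Agent.Q84.WZ

theorem result :
    Amenable ℤ ∧ IsBFS E N ∧ TransInv E ∧
      (∃ T : E →ₗ[ℂ] E, Bdd N T ∧ ¬ Regular T) ∧
      (∀ T : E →ₗ[ℂ] E, Bdd N T → CommRight T → Regular T) :=
  ⟨amenable_int, isBFS_E, transInv_E, ⟨T0, T0_bdd, T0_not_regular⟩, regular_of_comm⟩

end Pool.Agent.Results.MP_3f33d0_an.WeightedIntegers
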